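import Pool.Agent.H86.DB.Targets

/-!
# Thickenings with arbitrary support
-/

open Module MvPolynomial

namespace Pool.Agent.H70.DB

open Pool.Agent.H12.Defect Pool.Agent.H15.Defect Pool.Agent.H15.ER Pool.Agent.H86.DB
open Pool.Agent.H14.RF (exists_point)

universe u

variable {k : Type u} [Field k]

/-- the translation -/
noncomputable def tra {m : ℕ} (a : Fin m → k) : MvPolynomial (Fin m) k →ₐ[k] MvPolynomial (Fin m) k :=
  aeval fun j => X j + C (a j)

theorem tra_comp {m : ℕ} (a : Fin m → k) :
    (tra a).comp (tra fun j => - a j) = AlgHom.id k _ := by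
  apply MvPolynomial.algHom_ext
  intro j
  simp [tra]

/-- the translation as an equivalence -/
noncomputable def traE {m : ℕ} (a : Fin m → k) :
    MvPolynomial (Fin m) k ≃ₐ[k] MvPolynomial (Fin m) k :=
  AlgEquiv.ofAlgHom (tra a) (tra fun j => - a j) (tra_comp a) (by
    have h := tra_comp fun j => - a j
    simpa using h)

theorem traE_X {m : ℕ} (a : Fin m → k) (j : Fin m) : traE a (X j - C (a j)) = X j := by
  show tra a (X j - C (a j)) = X j
  simp [tra]

/-- quotients by comaximal ideals -/
noncomputable def prodE {S : Type u} [CommRing S] [Algebra k S] (I J : Ideal S) (h : IsCoprime I J) :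
    (S ⧸ I ⊓ J) ≃ₐ[k] (S ⧸ I) × S ⧸ J :=
  AlgEquiv.ofRingEquiv (f := Ideal.quotientInfEquivQuotientProd I J h) fun _ => rfl

theorem pf_THK (hM : T_MON.{u}) (hL : T_L1.{u}) : T_THK.{u} := by
  intro k _ _ m
  have hmono : ∀ (J : Ideal (MvPolynomial (Fin m) k)) (a b : ℕ), a ≤ b →
      Module.Finite k (MvPolynomial (Fin m) k ⧸ J ^ b) →
      finrank k (MvPolynomial (Fin m) k ⧸ J ^ a) ≤ finrank k (MvPolynomial (Fin m) k ⧸ J ^ b) := by
    intro J a b hab hf
    have hJ : J ^ b ≤ J ^ a := Ideal.pow_le_pow_right hab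
    exact LinearMap.finrank_le_finrank_of_surjective
      (f := (Ideal.Quotient.factorₐ k hJ).toLinearMap) (Ideal.Quotient.factor_surjective hJ)
  have key : ∀ (d : ℕ) (I : Ideal (MvPolynomial (Fin m) k)),
      Module.Finite k (MvPolynomial (Fin m) k ⧸ I) → I ≠ ⊤ →
      finrank k (MvPolynomial (Fin m) k ⧸ I) = d →
      ∃ e N : ℕ, 1 ≤ e ∧ ∀ n : ℕ,
        Dle k (MvPolynomial (Fin m) k ⧸ I ^ (n + 1)) (e * (n + m).choose m) ∧
        e * (n + m).choose m ≤ finrank k (MvPolynomial (Fin m) k ⧸ I ^ (N + (n + 1))) := by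
    intro d
    induction d using Nat.strong_induction_on with
    | _ d ih =>
      intro I hfin hI hd
      have hnt : Nontrivial (MvPolynomial (Fin m) k ⧸ I) := Ideal.Quotient.nontrivial_iff.2 hI
      obtain ⟨α⟩ := exists_point (k := k) (A := MvPolynomial (Fin m) k ⧸ I)
      rcases local_or_split α with ⟨c, hc⟩ | ⟨A₁, A₂, _, _, _, _, hf1, hf2, hn1, hn2, ⟨E⟩⟩
      · -- one point
        set a : Fin m → k := fun j => α (Ideal.Quotient.mk I (X j)) with ha
        have h1 : Ideal.span (Set.range fun j => (X j - C (a j) : MvPolynomial (Fin m) k)) ^ c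
            ≤ I := by
          have h2 : Ideal.map (Ideal.Quotient.mk I)
              (Ideal.span (Set.range fun j => (X j - C (a j) : MvPolynomial (Fin m) k))) ≤
              RingHom.ker α := by
            rw [Ideal.map_span, Ideal.span_le]
            rintro _ ⟨_, ⟨j, rfl⟩, rfl⟩
            show α (Ideal.Quotient.mk I (X j - C (a j))) = 0
            rw [map_sub, map_sub, sub_eq_zero]
            exact (α.commutes (a j)).symm
          have h3 : Ideal.map (Ideal.Quotient.mk I)
              (Ideal.span (Set.range fun j => (X j - C (a j) : MvPolynomial (Fin m) k)) ^ c) ≤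
              ⊥ := by
            rw [Ideal.map_pow, ← hc]
            exact Ideal.pow_right_mono h2 c
          intro x hx
          have h4 := h3 (Ideal.mem_map_of_mem _ hx)
          rw [Ideal.mem_bot] at h4
          exact Ideal.Quotient.eq_zero_iff_mem.1 h4
        set I' : Ideal (MvPolynomial (Fin m) k) := I.map (traE a : _ →+* _) with hI'
        have hat : AtO I' := by
          refine ⟨c, ?_⟩
          have h2 : Ideal.map (traE a : MvPolynomial (Fin m) k →+* MvPolynomial (Fin m) k)
              (Ideal.span (Set.range fun j => (X j - C (a j) : MvPolynomial (Fin m) k))) =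
              Ideal.span (Set.range (X : Fin m → MvPolynomial (Fin m) k)) := by
            rw [Ideal.map_span, ← Set.range_comp]
            congr 1
            ext x
            constructor
            · rintro ⟨j, rfl⟩
              exact ⟨j, (traE_X a j).symm⟩
            · rintro ⟨j, rfl⟩
              exact ⟨j, traE_X a j⟩
          rw [← h2, ← Ideal.map_pow]
          exact Ideal.map_mono h1
        have hE : ∀ n, Nonempty ((MvPolynomial (Fin m) k ⧸ I ^ n) ≃ₐ[k]
            (MvPolynomial (Fin m) k ⧸ I' ^ n)) := fun n =>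
          ⟨Ideal.quotientEquivAlg (I ^ n) (I' ^ n) (traE a) (by rw [Ideal.map_pow])⟩
        obtain ⟨e, N, -, h2⟩ := hL k m I' hat
        have h3 : ∀ n : ℕ, Dle k (MvPolynomial (Fin m) k ⧸ I ^ (n + 1)) (e * (n + m).choose m) ∧
            e * (n + m).choose m ≤ finrank k (MvPolynomial (Fin m) k ⧸ I ^ (N + (n + 1))) := by
          intro n
          obtain ⟨e1⟩ := hE (n + 1)
          obtain ⟨e2⟩ := hE (N + (n + 1))
          refine ⟨(h2 n).1.of_equiv e1.symm, ?_⟩
          rw [LinearEquiv.finrank_eq e2.toLinearEquiv]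
          exact (h2 n).2
        refine ⟨e, N, ?_, h3⟩
        rcases Nat.eq_zero_or_pos e with h4 | h4
        · exfalso
          obtain ⟨B, i1, i2, hB, ⟨g, hg⟩, hN⟩ := (h3 0).1
          rw [h4, zero_mul, Nat.le_zero] at hN
          have hfB := IsSmoothable.finite hB
          have hsB : Subsingleton B := Module.finrank_zero_iff.1 hN
          have h5 : Subsingleton (MvPolynomial (Fin m) k ⧸ I ^ (0 + 1)) := hg.subsingleton
          have h6 := Ideal.Quotient.subsingleton_iff.1 h5
          rw [zero_add, pow_one] at h6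
          exact hI h6
        · exact h4
      · -- several points
        let p₁ : MvPolynomial (Fin m) k →ₐ[k] A₁ :=
          ((AlgHom.fst k A₁ A₂).comp E.toAlgHom).comp (Ideal.Quotient.mkₐ k I)
        let p₂ : MvPolynomial (Fin m) k →ₐ[k] A₂ :=
          ((AlgHom.snd k A₁ A₂).comp E.toAlgHom).comp (Ideal.Quotient.mkₐ k I)
        have hp : ∀ x, (p₁ x, p₂ x) = E (Ideal.Quotient.mk I x) := fun _ => rfl
        have hs : ∀ y : A₁ × A₂, ∃ x, p₁ x = y.1 ∧ p₂ x = y.2 := by
          intro y
          obtain ⟨x, hx⟩ := Ideal.Quotient.mk_surjective (E.symm y)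
          have h1 : E (Ideal.Quotient.mk I x) = y := by rw [hx, AlgEquiv.apply_symm_apply]
          rw [← hp] at h1
          exact ⟨x, congrArg Prod.fst h1, congrArg Prod.snd h1⟩
        have hs1 : Function.Surjective p₁ := fun y => by
          obtain ⟨x, hx, -⟩ := hs (y, 0)
          exact ⟨x, hx⟩
        have hs2 : Function.Surjective p₂ := fun y => by
          obtain ⟨x, -, hx⟩ := hs (0, y)
          exact ⟨x, hx⟩
        set I₁ : Ideal (MvPolynomial (Fin m) k) := RingHom.ker p₁ with hI₁
        set I₂ : Ideal (MvPolynomial (Fin m) k) := RingHom.ker p₂ with hI₂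
        let e₁ : (MvPolynomial (Fin m) k ⧸ I₁) ≃ₐ[k] A₁ :=
          Ideal.quotientKerAlgEquivOfSurjective hs1
        let e₂ : (MvPolynomial (Fin m) k ⧸ I₂) ≃ₐ[k] A₂ :=
          Ideal.quotientKerAlgEquivOfSurjective hs2
        have hcop : I₁ ⊔ I₂ = ⊤ := by
          rw [Ideal.eq_top_iff_one]
          obtain ⟨x, hx1, hx2⟩ := hs (0, 1)
          have h1 : x ∈ I₁ := hx1
          have h2 : 1 - x ∈ I₂ := by
            show p₂ (1 - x) = 0
            rw [map_sub, map_one, hx2, sub_self]
          have h3 := Ideal.add_mem _ (Ideal.mem_sup_left h1 : x ∈ I₁ ⊔ I₂)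
            (Ideal.mem_sup_right h2 : 1 - x ∈ I₁ ⊔ I₂)
          rwa [add_sub_cancel] at h3
        have hinf : I = I₁ ⊓ I₂ := by
          ext x
          rw [Ideal.mem_inf, ← Ideal.Quotient.eq_zero_iff_mem]
          constructor
          · intro h1
            have h2 := hp x
            rw [h1, map_zero] at h2
            exact ⟨congrArg Prod.fst h2, congrArg Prod.snd h2⟩
          · rintro ⟨h1, h2⟩
            have h3 := hp x
            have h1' : p₁ x = 0 := h1
            have h2' : p₂ x = 0 := h2
            rw [h1', h2'] at h3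
            exact (map_eq_zero_iff E E.injective).1 h3.symm
        have hpow : ∀ n, I ^ n = I₁ ^ n ⊓ I₂ ^ n := by
          intro n
          rw [hinf, ← Ideal.mul_eq_inf_of_coprime hcop, mul_pow,
            Ideal.mul_eq_inf_of_coprime (Ideal.pow_sup_pow_eq_top hcop)]
        have hcn : ∀ n, IsCoprime (I₁ ^ n) (I₂ ^ n) := fun n =>
          Ideal.isCoprime_iff_sup_eq.2 (Ideal.pow_sup_pow_eq_top hcop)
        have hEn : ∀ n, Nonempty ((MvPolynomial (Fin m) k ⧸ I ^ n) ≃ₐ[k]
            (MvPolynomial (Fin m) k ⧸ I₁ ^ n) × (MvPolynomial (Fin m) k ⧸ I₂ ^ n)) := fun n =>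
          ⟨(Ideal.quotientEquivAlgOfEq k (hpow n)).trans (prodE _ _ (hcn n))⟩
        have hfin1 : Module.Finite k (MvPolynomial (Fin m) k ⧸ I₁) :=
          Module.Finite.equiv e₁.symm.toLinearEquiv
        have hfin2 : Module.Finite k (MvPolynomial (Fin m) k ⧸ I₂) :=
          Module.Finite.equiv e₂.symm.toLinearEquiv
        have hr1 : finrank k (MvPolynomial (Fin m) k ⧸ I₁) = finrank k A₁ :=
          LinearEquiv.finrank_eq e₁.toLinearEquiv
        have hr2 : finrank k (MvPolynomial (Fin m) k ⧸ I₂) = finrank k A₂ :=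
          LinearEquiv.finrank_eq e₂.toLinearEquiv
        have hr : d = finrank k A₁ + finrank k A₂ := by
          rw [← hd, ← Module.finrank_prod]
          exact LinearEquiv.finrank_eq E.toLinearEquiv
        have hp1 := Module.finrank_pos (R := k) (M := A₁)
        have hp2 := Module.finrank_pos (R := k) (M := A₂)
        have hI1 : I₁ ≠ ⊤ := by
          intro h1
          have h2 : (1 : MvPolynomial (Fin m) k) ∈ I₁ := by rw [h1]; exact Submodule.mem_top
          have h3 : p₁ 1 = 0 := h2
          rw [map_one] at h3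
          exact one_ne_zero h3
        have hI2 : I₂ ≠ ⊤ := by
          intro h1
          have h2 : (1 : MvPolynomial (Fin m) k) ∈ I₂ := by rw [h1]; exact Submodule.mem_top
          have h3 : p₂ 1 = 0 := h2
          rw [map_one] at h3
          exact one_ne_zero h3
        obtain ⟨a₁, N₁, ha₁, h₁⟩ := ih (finrank k A₁) (by omega) I₁ hfin1 hI1 hr1
        obtain ⟨a₂, N₂, ha₂, h₂⟩ := ih (finrank k A₂) (by omega) I₂ hfin2 hI2 hr2
        refine ⟨a₁ + a₂, max N₁ N₂, by omega, fun n => ?_⟩
        obtain ⟨E1⟩ := hEn (n + 1)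
        obtain ⟨E2⟩ := hEn (max N₁ N₂ + (n + 1))
        refine ⟨?_, ?_⟩
        · rw [add_mul]
          exact ((h₁ n).1.prod (h₂ n).1).of_equiv E1.symm
        · have f1 := (hM k m I₁ (max N₁ N₂ + (n + 1)) hfin1).1
          have f2 := (hM k m I₂ (max N₁ N₂ + (n + 1)) hfin2).1
          rw [LinearEquiv.finrank_eq E2.toLinearEquiv, Module.finrank_prod, add_mul]
          refine Nat.add_le_add ((h₁ n).2.trans ?_) ((h₂ n).2.trans ?_)
          · exact hmono I₁ _ _ (by omega) f1
          · exact hmono I₂ _ _ (by omega) f2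
  intro I hfin hI
  exact key _ I hfin hI rfl

end Pool.Agent.H70.DB
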